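import Pool.Agent.Q138.PS.TT
import Pool.Agent.Results.MP_ab3ecb_nt.SuperellipticTwists
import Pool.Agent.Results.MP_ab3ecb_nt.TwistsNearBranchPoint

/-!
# The Brauer-Manin sets of the twists by the integers `± ⌊α P(n)⌋`: superelliptic curves, rational branch points

Let `q ≥ 2`. Outside a set of real numbers of Hausdorff dimension at most `q / (q + 1 / (q 2 ^ (q - 1)))` (that is
`8 / 9` for `q = 2`) every `α > 0` has the following property. Let `f_1, ..., f_k ∈ ℤ[x]` be irreducible over `ℚ` and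
pairwise non-associated. For ALL integral polynomials `P` of degree `q` with positive leading coefficient and
coefficients of size at most `N ^ η`, and for all but `O (N / (log N) ^ δ)` of the `n ≤ N`, with `d` the squarefree
part of `± ⌊α P(n)⌋`:

* if all the degrees are even, the Brauer-Manin sets of the curves `d y ^ m = F_1(x, w) ... F_k(x, w)`, `m` even and
  a divisor of the degree, are empty;
* if the degree is even, at least four of the `f_i` have odd degree, and some of them are linear (in general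
  position), then every point of the Brauer-Manin set of `d y ^ 2 = F_1 ... F_k` has at all places the type of one and
  the same rational branch point, and reduces to it modulo all primes `p > z` dividing `d`.
-/

set_option autoImplicit false

open Finset Filter Topology MeasureTheory Polynomial
open Pool.Agent.Q138.PS Pool.Agent.W313.BMX

namespace Pool.Agent.Results.MP_ab3ecb_nt.BrauerManinRealMultiples

section K

variable {K : Type} [Fintype K] [DecidableEq K]

/-- A point over `F` of the curve `d * y ^ n = ∏ k, f k (x, w)` in a weighted projective plane. -/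
structure CoverPoint (f : K → ℤ[X]) (d : ℤ) (n : ℕ) (F : Type) [Field F] where
  /-- the first coordinate -/
  x : F
  /-- the second coordinate -/
  w : F
  /-- the third coordinate -/
  y : F
  ne : x ≠ 0 ∨ w ≠ 0
  eq : (d : F) * y ^ n = ∏ k, homog (f k) x w

/-- An adelic point of the curve `d * y ^ n = ∏ k, f k (x, w)`. -/
structure AdelicCoverPoint (f : K → ℤ[X]) (d : ℤ) (n : ℕ) where
  /-- the real component -/
  re : CoverPoint f d n ℝ
  /-- the `p`-adic components -/
  pa : ∀ p : Nat.Primes, CoverPoint f d n ℚ_[(p : ℕ)]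

open Classical in
/-- The value of the `k`-th factor at a point, modulo squares; at a zero of the `k`-th factor it is
computed from the other factors. -/
noncomputable def coverValue {f : K → ℤ[X]} {d : ℤ} {n : ℕ} {F : Type} [Field F]
    (P : CoverPoint f d n F) (k : K) : F :=
  if homog (f k) P.x P.w ≠ 0 then homog (f k) P.x P.w
  else d * ∏ l ∈ univ.erase k, homog (f l) P.x P.w

/-- The adelic point is orthogonal to the classes `(f k, e)` of the Brauer group: the number of the
places at which the value of the class is not trivial is even, the sum of the invariants is zero. -/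
def OrthogonalCover {f : K → ℤ[X]} {d : ℤ} {n : ℕ} (P : AdelicCoverPoint f d n) : Prop :=
  ∀ (k : K) (e : ℤ), e ≠ 0 →
    Even (ram ⟨coverValue P.re k, fun p => coverValue (P.pa p) k⟩ e).ncard

/-- the indices of the factors of odd degree -/
def Od (f : K → ℤ[X]) : Finset K := univ.filter (fun k => Odd (f k).natDegree)

/-- the indices of the linear factors -/
def Ln (f : K → ℤ[X]) : Finset K := univ.filter (fun k => (f k).natDegree = 1)

/-- the value of `F k` at the zero `(-b, a)` of the linear form `F i = a x + b w` -/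
noncomputable def val (f : K → ℤ[X]) (i k : K) : ℤ :=
  homog (f k) (-(f i).coeff 0) ((f i).coeff 1)

/-- the factors are irreducible over `ℚ`, pairwise non-associated, of even total degree, and at
least four of them have odd degree -/
def MixedFactors (f : K → ℤ[X]) : Prop :=
  (∀ k, Irreducible ((f k).map (Int.castRingHom ℚ))) ∧
  (∀ k l, k ≠ l →
    ¬ Associated ((f k).map (Int.castRingHom ℚ)) ((f l).map (Int.castRingHom ℚ))) ∧
  Even (∑ k, (f k).natDegree) ∧ 4 ≤ (Od f).card

/-- the condition on the linear factors: for any two linear factors `i ≠ k` there is a product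
`F T`, `T ⊆ K \ {i, k}`, of even degree, whose values at the zeros of `F i`, `F k` are not in the
same square class; if there are exactly four factors of odd degree, and these are linear, then there
are two of them, `i` and `k`, and a product `F T` of factors of even degree with this property -/
def General (f : K → ℤ[X]) : Prop :=
  (∀ i ∈ Ln f, ∀ k ∈ Ln f, i ≠ k → ∃ T : Finset K, i ∉ T ∧ k ∉ T ∧ Even (T ∩ Od f).card ∧
    ¬ IsSquare (∏ l ∈ T, (val f i l * val f k l))) ∧
  ((Od f).card = 4 → Od f ⊆ Ln f → ∃ i ∈ Od f, ∃ k ∈ Od f, ∃ T : Finset K,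
    Disjoint T (Od f) ∧ ¬ IsSquare (∏ l ∈ T, (val f i l * val f k l)))

/-- The family of the values of `F k * F l` at the components of an adelic point. -/
noncomputable def values2 {f : K → ℤ[X]} {d : ℤ} (P : AdelicPoint f d) (k l : K) : Fam :=
  ⟨value P.re k * value P.re l, fun p => value (P.pa p) k * value (P.pa p) l⟩

/-- The adelic point is orthogonal to the classes `(F k, e)`, `deg F k` even, and `(F k * F l, e)`,
`deg F k`, `deg F l` odd: the number of the places at which the Hilbert symbol is not trivial is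
even, so that the sum of the invariants is zero. -/
def OrthogonalMixed {f : K → ℤ[X]} {d : ℤ} (P : AdelicPoint f d) : Prop :=
  ∀ e : ℤ, e ≠ 0 → (∀ k, Even (f k).natDegree → Even (ram (values P k) e).ncard) ∧
    ∀ k l, k ≠ l → Odd (f k).natDegree → Odd (f l).natDegree → Even (ram (values2 P k l) e).ncard

/-- the adelic point has the type of the zero `P i` of the linear form `F i`: for every product
`F T` of even degree, `i ∉ T`, the values of `F T` at the point and at `P i` are in the same square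
class at all places -/
def TypeOf {f : K → ℤ[X]} {d : ℤ} (P : AdelicPoint f d) (i : K) : Prop :=
  ∀ T : Finset K, i ∉ T → Even (∑ k ∈ T, (f k).natDegree) →
    IsSquare (∏ k ∈ T, (value P.re k * (val f i k : ℝ))) ∧
    ∀ p : Nat.Primes, IsSquare (∏ k ∈ T, (value (P.pa p) k * (val f i k : ℚ_[(p : ℕ)])))

/-- The `p`-adic component of the adelic point reduces modulo `p` to the zero of the linear form
`F i`, for all primes `p > z` dividing `d`: the value of `F i` at the coordinates `(x, w)` is smaller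
than the larger one of the coordinates. -/
def ReducesTo {f : K → ℤ[X]} {d : ℤ} (z : ℕ) (P : AdelicPoint f d) (i : K) : Prop :=
  ∀ p : Nat.Primes, z < (p : ℕ) → ((p : ℕ) : ℤ) ∣ d →
    ‖homog (f i) (P.pa p).x (P.pa p).w‖ < max ‖(P.pa p).x‖ ‖(P.pa p).w‖

end K

/-- `X² - 13`, `(X - 1)² - 17`, `(X - 2)² - 221` -/
noncomputable def ex : Fin 3 → ℤ[X] := ![X ^ 2 - 13, (X - 1) ^ 2 - 17, (X - 2) ^ 2 - 221]

open Classical in
/-- the number of the pairs of an integer `1 ≤ n ≤ N` and a sign `s` for which `s ⌊α P(n)⌋ = d m²` with a squarefree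
number `d` which has the property `Z` -/
noncomputable def count (α : ℝ) (P : ℤ[X]) (N : ℕ) (Z : ℤ → Prop) : ℕ :=
  ((Icc 1 N ×ˢ ({1, -1} : Finset ℤ)).filter fun x : ℕ × ℤ =>
    ∃ (d : ℤ) (m : ℕ), Squarefree d ∧ 1 ≤ m ∧ d * (m : ℤ) ^ 2 = x.2 * (⌊α * ((P.eval (x.1 : ℤ) : ℤ) : ℝ)⌋₊ : ℤ) ∧
      Z d).card

/-- the squarefree part of `± ⌊α P(n)⌋` has the property `Z` for at most `C N / (log N) ^ δ` of the `n ≤ N`, uniformly
in the polynomials `P` of degree `q` with positive leading coefficient and coefficients of size at most `N ^ η` -/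
def Few (q : ℕ) (α : ℝ) (Z : ℤ → Prop) : Prop :=
  ∃ η δ C : ℝ, 0 < η ∧ 0 < δ ∧ ∀ᶠ N : ℕ in atTop, ∀ P : ℤ[X], P.natDegree = q → 0 < P.leadingCoeff →
    (∀ j, |((P.coeff j : ℤ) : ℝ)| ≤ (N : ℝ) ^ η) → (count α P N Z : ℝ) ≤ C * N * (Real.log N) ^ (-δ)

theorem countable_pol : Countable ℤ[X] :=
  Cardinal.mk_le_aleph0_iff.1 (by
    refine (Polynomial.cardinalMk_le_max (R := ℤ)).trans ?_
    simp)

theorem result (q : ℕ) (hq : 2 ≤ q) :
    (∃ E : Set ℝ, dimH E ≤ ENNReal.ofReal ((q : ℝ) / (q + 1 / (q * 2 ^ (q - 1)))) ∧ ∀ α : ℝ, 0 < α → α ∉ E →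
      ∀ (k : ℕ) (f : Fin k → ℤ[X]),
      (Admissible f → Few q α (fun d => ∃ m : ℕ, Even m ∧ m ∣ ∑ i, (f i).natDegree ∧
        ∃ P : AdelicCoverPoint f d m, OrthogonalCover P)) ∧
      (MixedFactors f → General f → (Ln f).Nonempty → ∃ z : ℕ, Few q α (fun d => ¬ ∀ P : AdelicPoint f d,
        OrthogonalMixed P → ∃ i, (f i).natDegree = 1 ∧ TypeOf P i ∧ ReducesTo z P i))) ∧
    (∀ (k : ℕ) (f : Fin k → ℤ[X]), Admissible f → ∀ (d : ℤ) (m : ℕ), d ≠ 0 → Even m →
      ∀ (P : AdelicCoverPoint f d m) (i : Fin k) (e : ℤ), e ≠ 0 →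
        (ram ⟨coverValue P.re i, fun p => coverValue (P.pa p) i⟩ e).Finite) ∧
    (Admissible ex ∧ ∀ (d : ℤ) (m : ℕ), m ≠ 0 → Nonempty (AdelicCoverPoint ex d m)) := by
  classical
  have := countable_pol
  obtain ⟨hE1, hE2, hE3⟩ := MP_ab3ecb_nt.SuperellipticTwists.result
  have conv : ∀ {K : Type} [Fintype K] [DecidableEq K] {f : K → ℤ[X]} {d : ℤ} {m : ℕ} (P : AdelicCoverPoint f d m),
      ∃ Q : MP_ab3ecb_nt.SuperellipticTwists.AdelicCoverPoint f d m,
        (∀ i, coverValue P.re i = MP_ab3ecb_nt.SuperellipticTwists.coverValue Q.re i) ∧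
        ∀ i p, coverValue (P.pa p) i = MP_ab3ecb_nt.SuperellipticTwists.coverValue (Q.pa p) i := by
    intro K _ _ f d m P
    exact ⟨⟨⟨P.re.x, P.re.w, P.re.y, P.re.ne, P.re.eq⟩, fun p => ⟨(P.pa p).x, (P.pa p).w, (P.pa p).y, (P.pa p).ne,
      (P.pa p).eq⟩⟩, fun _ => rfl, fun _ _ => rfl⟩
  refine ⟨?_, fun k f hf d m hd hm P i e he => ?_, hE2, fun d m hm => ?_⟩
  · obtain ⟨E1, hdim1, hT1⟩ := exc_sqf (ι := Σ k : ℕ, (Fin k → ℤ[X])) q hq
      (fun i d => ∃ m : ℕ, Even m ∧ m ∣ ∑ j, (i.2 j).natDegree ∧ ∃ P : AdelicCoverPoint i.2 d m, OrthogonalCover P)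
    obtain ⟨E2, hdim2, hT2⟩ := exc_sqf (ι := (Σ k : ℕ, (Fin k → ℤ[X])) × ℕ) q hq
      (fun i d => ¬ ∀ P : AdelicPoint i.1.2 d, OrthogonalMixed P →
        ∃ j, (i.1.2 j).natDegree = 1 ∧ TypeOf P j ∧ ReducesTo i.2 P j)
    refine ⟨E1 ∪ E2, ?_, fun α hα hαE k f => ⟨fun hf => ?_, fun hF hG hL => ?_⟩⟩
    · rw [dimH_union]
      exact max_le hdim1 hdim2
    · obtain ⟨δ, hδ, C, hC⟩ := (hE1 (Fin k) f hf).1
      obtain ⟨η, hη, h1⟩ := hT1 α hα (fun h => hαE (Or.inl h)) ⟨k, f⟩
      obtain ⟨C', hC'⟩ := h1 δ C hδ (fun Y hY => by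
        refine le_trans ?_ (hC Y hY)
        refine Nat.cast_le.2 (Set.ncard_le_ncard ?_ (Pool.Agent.TH213.SP.fin_le Y _))
        rintro d ⟨h1, h2, m, h3, h4, P, hP⟩
        obtain ⟨Q, hQ1, hQ2⟩ := conv P
        refine ⟨h1, h2, m, h3, h4, Q, fun i e he => ?_⟩
        have h5 := hP i e he
        rw [hQ1 i] at h5
        simp only [hQ2 i] at h5
        exact h5)
      exact ⟨η, δ, C', hη, hδ, hC'⟩
    · obtain ⟨z, δ, hδ, C, hC⟩ := MP_ab3ecb_nt.TwistsNearBranchPoint.result (Fin k) f hF hG hL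
      obtain ⟨η, hη, h1⟩ := hT2 α hα (fun h => hαE (Or.inr h)) (⟨k, f⟩, z)
      obtain ⟨C', hC'⟩ := h1 δ C hδ hC
      exact ⟨z, η, δ, C', hη, hδ, hC'⟩
  · obtain ⟨Q, hQ1, hQ2⟩ := conv P
    have h5 := (hE1 (Fin k) f hf).2 d m hd hm Q i e he
    rw [← hQ1 i] at h5
    simp only [← hQ2 i] at h5
    exact h5
  · obtain ⟨Q⟩ := hE3 d m hm
    exact ⟨⟨⟨Q.re.x, Q.re.w, Q.re.y, Q.re.ne, Q.re.eq⟩, fun p => ⟨(Q.pa p).x, (Q.pa p).w, (Q.pa p).y, (Q.pa p).ne,
      (Q.pa p).eq⟩⟩⟩

end Pool.Agent.Results.MP_ab3ecb_nt.BrauerManinRealMultiples
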