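import Pool.Agent.Q51.EB.All2

/-!
# The Brauer-Manin sets of 100% of the everywhere locally soluble superelliptic twists are empty

Let `f ∈ ℤ[x]` be irreducible over `ℚ`, of even degree `n ≥ 6`, let `F(x, w)` be its homogenisation,
let `m ≥ 4` be an even divisor of `n`, and let `C_D : D y ^ m = F(x, w)` be the twists of the superelliptic
curve `y ^ m = f(x)`, smooth curves in the weighted projective plane of weights `(1, 1, n/m)`.  Put
`L = ℚ[X]/(f) = ℚ(θ)`.  For `ε ∈ L^*` whose norm is a square the class `A_ε = Cor_{L/ℚ} (x - θ w, ε)` lies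
in the Brauer group of `C_D` (it is pulled back from the hyperelliptic curve `D z² = F(x, w)`,
`z = y ^ (m/2)`).

**Theorem.**  There are `δ > 0` and `C` such that for all `X ≥ 3` there are at most `C (log X)^(-δ) E(X)`
squarefree `D` with `|D| ≤ X` for which some adelic point of `C_D` is orthogonal to all classes `A_ε`;
here `E(X)` is the number of the squarefree `D` with `|D| ≤ X` for which `C_D` has an adelic point.
If `C_D` has an adelic point for some squarefree `D`, then `E(X) ≥ c X / log X * exp (∑ 1/q)` for large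
`X`, the sum over the primes `q ≤ X` modulo which `f` has a zero.

So for 100% of the everywhere locally soluble twists `C_D` the Brauer-Manin set is empty, and the
assertion of the problem holds: `C_D(ℚ)` is empty, too, and so is its closure.

The local invariants of `A_ε` are computed with Serre's formula: for `a, b` in an etale algebra `A` over
a field `F`, `q_u` the quadratic form `Tr (u z²)` on `A` and `s(q)` its Hasse-Witt invariant,
`Cor_{A/F} (a, b) = s(q_{ab}) s(q_a) s(q_b) s(q_1) (N a, N b)`.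

Proof.  The upper bound follows from the one for the hyperelliptic curves (project EB, see
`MP_308fa9_nt.EmptyForSolubleTwists`), which is `≤ C X (log X)^(-1-δ) exp (∑ 1/q)`.  The lower bound for
`E(X)`: Weil's bound for character sums, and products of primes modulo which `f` has a zero in the
class `1` modulo a suitable integer.

(helper51, with lemmas of helper26, helper68, helper241, and for project EB of helper58, helper187,
helper247, and for project EL of helper52, helper91, helper154, helper198, helper239, helper241,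
helper247, and helper38.)
-/

set_option autoImplicit false

namespace Pool.Agent.Results.MP_ab3ecb_nt.EmptyForSuperellipticTwists

open Polynomial Finset

/-- The homogenisation `F(x, w) = ∑ i, a i * x ^ i * w ^ (n - i)` of `f = ∑ i, a i * x ^ i`, where
`n = deg f`. -/
noncomputable def hom (f : ℤ[X]) {R : Type*} [CommRing R] (x w : R) : R :=
  ∑ i ∈ range (f.natDegree + 1), (f.coeff i : R) * x ^ i * w ^ (f.natDegree - i)

/-- A point over `F` of the curve `C_D : D y ^ m = F(x, w)`. -/
structure Point (f : ℤ[X]) (m : ℕ) (D : ℤ) (F : Type) [Field F] where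
  /-- the first coordinate -/
  x : F
  /-- the second coordinate -/
  w : F
  /-- the third coordinate -/
  y : F
  ne : x ≠ 0 ∨ w ≠ 0
  eq : (D : F) * y ^ m = hom f x w

/-- An adelic point of the curve `C_D`. -/
structure AdelicPoint (f : ℤ[X]) (m : ℕ) (D : ℤ) where
  /-- the real component -/
  re : Point f m D ℝ
  /-- the `p`-adic components -/
  pa : ∀ p : Nat.Primes, Point f m D ℚ_[(p : ℕ)]

section local_

variable {F : Type} [Field F]

open Classical in
/-- The Hilbert symbol `(a, b)` of the field `F`. -/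
noncomputable def hilbert (a b : F) : ℤˣ :=
  if ∃ x y z : F, (x ≠ 0 ∨ y ≠ 0 ∨ z ≠ 0) ∧ z ^ 2 = a * x ^ 2 + b * y ^ 2 then 1 else -1

/-- `s` is the Hasse-Witt invariant `∏_{i < j} (a i, a j)` of the quadratic form with the matrix `M`,
computed with an orthogonal basis, `a i ≠ 0` the values of the form at the basis vectors. -/
def IsHasseWitt {n : ℕ} (M : Matrix (Fin n) (Fin n) F) (s : ℤˣ) : Prop :=
  ∃ (P : Matrix (Fin n) (Fin n) F) (a : Fin n → F), P.det ≠ 0 ∧ (∀ i, a i ≠ 0) ∧
    P.transpose * M * P = Matrix.diagonal a ∧ s = ∏ i, ∏ j ∈ Ioi i, hilbert (a i) (a j)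

open Classical in
/-- The Hasse-Witt invariant of the quadratic form with the matrix `M`. -/
noncomputable def hasseWitt {n : ℕ} (M : Matrix (Fin n) (Fin n) F) : ℤˣ :=
  if h : ∃ s, IsHasseWitt M s then Classical.choose h else 1

/-- The matrix of the quadratic form `Tr (u z²)` on `F[X]/(g)` in the basis `1, X, .., X^(n-1)`. -/
noncomputable def traceForm (g u : F[X]) : Matrix (Fin g.natDegree) (Fin g.natDegree) F :=
  fun i j => Algebra.trace F (AdjoinRoot g) (AdjoinRoot.mk g (u * X ^ ((i : ℕ) + j)))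

/-- The local invariant (`±1`) of the corestriction from `A = F[X]/(g)` to the local field `F` of the
quaternion algebra `(a, b)`, by Serre's formula. -/
noncomputable def corestriction (g a b : F[X]) : ℤˣ :=
  hasseWitt (traceForm g (a * b)) * hasseWitt (traceForm g a) * hasseWitt (traceForm g b) *
    hasseWitt (traceForm g 1) *
      hilbert (Algebra.norm F (AdjoinRoot.mk g a)) (Algebra.norm F (AdjoinRoot.mk g b))

/-- `f` as a polynomial over `F`. -/
noncomputable abbrev polOver (f : ℤ[X]) (F : Type) [Field F] : F[X] := f.map (Int.castRingHom F)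

/-- The element `a(θ)` of `F[X]/(f)` is a value of `x - θ w` at the point `P`: it is equal to `x - θ w`
in all components in which `x - θ w` does not vanish, and `D * lc(f) * N(a(θ))` is a square (as for all
other points).  If `x - θ w` vanishes in one component (which is the case at a branch point), this
component of `a(θ)` is determined up to squares by this condition. -/
def IsValue {f : ℤ[X]} {m : ℕ} {D : ℤ} (P : Point f m D F) (a : F[X]) : Prop :=
  IsCoprime (polOver f F) a ∧
    polOver f F ∣ (C P.x - C P.w * X) * (a - (C P.x - C P.w * X)) ∧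
    IsSquare (((D * f.leadingCoeff : ℤ) : F) * Algebra.norm F (AdjoinRoot.mk (polOver f F) a))

open Classical in
/-- The local invariant of `A_ε` at the point `P`. -/
noncomputable def inv {f : ℤ[X]} {m : ℕ} {D : ℤ} (P : Point f m D F) (ε : F[X]) : ℤˣ :=
  if h : ∃ a, IsValue P a then corestriction (polOver f F) (Classical.choose h) ε else 1

end local_

/-- `ε(θ)` is an invertible element of `L = ℚ[X]/(f)`, and its norm is a square. -/
def SquareNorm (f : ℤ[X]) (ε : ℚ[X]) : Prop :=
  IsCoprime (polOver f ℚ) ε ∧ IsSquare (Algebra.norm ℚ (AdjoinRoot.mk (polOver f ℚ) ε))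

/-- The places of `ℚ` (`none` is the real one) at which the local invariant of `A_ε` at the adelic
point is not trivial. -/
def ram {f : ℤ[X]} {m : ℕ} {D : ℤ} (P : AdelicPoint f m D) (ε : ℚ[X]) :
    Set (Option Nat.Primes) :=
  {v | match v with
    | none => inv P.re (ε.map (Rat.castHom ℝ)) = -1
    | some p => inv (P.pa p) (ε.map (Rat.castHom ℚ_[(p : ℕ)])) = -1}

/-- The adelic point is orthogonal to the classes `A_ε`, `N(ε)` a square: the number of the nontrivial
local invariants (which is finite) is even, their sum is zero. -/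
def Orthogonal {f : ℤ[X]} {m : ℕ} {D : ℤ} (P : AdelicPoint f m D) : Prop :=
  ∀ ε : ℚ[X], SquareNorm f ε → Even (ram P ε).ncard

/-- The point over `F` given by a rational point. -/
noncomputable def Point.base {f : ℤ[X]} {m : ℕ} {D : ℤ} (Q : Point f m D ℚ) (F : Type) [Field F]
    [CharZero F] : Point f m D F where
  x := Q.x
  w := Q.w
  y := Q.y
  ne := by
    rcases Q.ne with h | h
    · left; exact_mod_cast h
    · right; exact_mod_cast h
  eq := by
    have h := congrArg (fun q : ℚ => (q : F)) Q.eq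
    simp only [hom] at h ⊢
    push_cast at h
    exact h

/-- The adelic point given by a rational point. -/
noncomputable def Point.adelic {f : ℤ[X]} {m : ℕ} {D : ℤ} (Q : Point f m D ℚ) :
    AdelicPoint f m D where
  re := Q.base ℝ
  pa := fun p => Q.base ℚ_[(p : ℕ)]

/-- The primes `q ≤ X` modulo which `f` has a zero. -/
def rootPrimes (f : ℤ[X]) (X : ℝ) : Set ℕ :=
  {q : ℕ | q.Prime ∧ (q : ℝ) ≤ X ∧ ∃ r : ℤ, (q : ℤ) ∣ f.eval r}

/-- The number of the squarefree `D` with `|D| ≤ X` and the property `P`. -/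
noncomputable def count (P : ℤ → Prop) (X : ℝ) : ℕ :=
  {D : ℤ | Squarefree D ∧ |(D : ℝ)| ≤ X ∧ P D}.ncard

/-- The local invariants of the classes `A_ε` at the points over `F` are well defined: values exist,
and all of them give the same invariant. -/
def WellDefined (f : ℤ[X]) (m : ℕ) (D : ℤ) (F : Type) [Field F] [CharZero F] : Prop :=
  ∀ P : Point f m D F, (∃ a, IsValue P a) ∧ ∀ a, IsValue P a → ∀ ε : ℚ[X], SquareNorm f ε →
    inv P (ε.map (Rat.castHom F)) = corestriction (polOver f F) a (ε.map (Rat.castHom F))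

/-- the image on the hyperelliptic curve -/
lemma image {f : ℤ[X]} {m : ℕ} (hm : Even m) {D : ℤ} {F : Type} [Field F] (P : Point f m D F) :
    (D : F) * (P.y ^ (m / 2)) ^ 2 = Pool.Agent.Q51.EL.hom f P.x P.w := by
  rw [← pow_mul, Nat.div_mul_cancel hm.two_dvd]
  exact P.eq

open Pool.Agent.Q51.EB in
lemma welldef (f : ℤ[X]) (hf : Irreducible (f.map (Int.castRingHom ℚ))) (h2 : 2 ≤ f.natDegree)
    {m : ℕ} (hm : Even m) {F : Type} [Field F] [CharZero F] [Infinite F] (hF : Hil F) {D : ℤ}
    (hD : D ≠ 0) : WellDefined f m D F := by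
  intro P
  have hf0 : f ≠ 0 := by
    rintro rfl
    simp at h2
  obtain ⟨-, -, -, hsep, -⟩ := Pool.Agent.Q247.EB.bc f hf F 1
  have hex : ∃ a, IsValue P a := isVal_exists hf0 hsep hD P.x P.w (P.y ^ (m / 2)) P.ne (image hm P)
  refine ⟨hex, fun a ha ε hε => ?_⟩
  unfold inv
  rw [dif_pos hex]
  exact cor_isVal hf h2 hF hD P.x P.w P.ne _ _ (Classical.choose_spec hex) ha _ (cop_map hε.1)

open Pool.Agent.Q51.EB in
/-- values of an adelic point, in the terms of the library -/
noncomputable def toVal {f : ℤ[X]} {m : ℕ} (hm : Even m) {D : ℤ} (P : AdelicPoint f m D)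
    (h1 : ∃ a, IsValue P.re a) (h2 : ∀ p : Nat.Primes, ∃ a, IsValue (P.pa p) a) : AVal f D where
  re := Classical.choose h1
  hre := ⟨P.re.x, P.re.w, P.re.y ^ (m / 2), P.re.ne, image hm P.re, Classical.choose_spec h1⟩
  pa := fun p => Classical.choose (h2 p)
  hpa := fun p => ⟨(P.pa p).x, (P.pa p).w, (P.pa p).y ^ (m / 2), (P.pa p).ne, image hm (P.pa p),
    Classical.choose_spec (h2 p)⟩

open Pool.Agent.Q51.EB in
lemma ram_toVal {f : ℤ[X]} {m : ℕ} (hm : Even m) {D : ℤ} (P : AdelicPoint f m D)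
    (h1 : ∃ a, IsValue P.re a) (h2 : ∀ p : Nat.Primes, ∃ a, IsValue (P.pa p) a) (ε : ℚ[X]) :
    ram P ε = ramA (toVal hm P h1 h2) ε := by
  ext v
  match v with
  | none =>
    change inv P.re _ = -1 ↔ cor (up f ℝ) (Classical.choose h1) _ = -1
    unfold inv
    rw [dif_pos h1]
    rfl
  | some p =>
    change inv (P.pa p) _ = -1 ↔ cor (up f ℚ_[(p : ℕ)]) (Classical.choose (h2 p)) _ = -1
    unfold inv
    rw [dif_pos (h2 p)]
    rfl

theorem result (f : ℤ[X]) (hf : Irreducible (f.map (Int.castRingHom ℚ))) (hev : Even f.natDegree)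
    (hn : 6 ≤ f.natDegree) (m : ℕ) (hm : Even m) (hm4 : 4 ≤ m) (_hmn : m ∣ f.natDegree) :
    (∀ D : ℤ, D ≠ 0 → WellDefined f m D ℝ ∧ ∀ p : Nat.Primes, WellDefined f m D ℚ_[(p : ℕ)]) ∧
    (∀ D : ℤ, Squarefree D → ∀ (P : AdelicPoint f m D) (ε : ℚ[X]), SquareNorm f ε →
      (ram P ε).Finite) ∧
    (∀ D : ℤ, D ≠ 0 → ∀ Q : Point f m D ℚ, Orthogonal Q.adelic) ∧
    (∃ δ C : ℝ, 0 < δ ∧ ∀ X : ℝ, 3 ≤ X →
      (count (fun D => ∃ P : AdelicPoint f m D, Orthogonal P) X : ℝ) ≤
        C * Real.log X ^ (-δ) * (count (fun D => Nonempty (AdelicPoint f m D)) X : ℝ)) ∧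
    ((∃ D : ℤ, Squarefree D ∧ Nonempty (AdelicPoint f m D)) →
      ∃ c X₀ : ℝ, 0 < c ∧ ∀ X : ℝ, X₀ ≤ X →
      c * X / Real.log X * Real.exp (∑' q : rootPrimes f X, (1 : ℝ) / (q : ℕ)) ≤
        (count (fun D => Nonempty (AdelicPoint f m D)) X : ℝ)) := by
  classical
  have hwd : ∀ D : ℤ, D ≠ 0 →
      WellDefined f m D ℝ ∧ ∀ p : Nat.Primes, WellDefined f m D ℚ_[(p : ℕ)] :=
    fun D hD => ⟨welldef f hf (by omega) hm Pool.Agent.Q247.EB.bil.1 hD,
      fun p => welldef f hf (by omega) hm (Pool.Agent.Q247.EB.bil.2 p) hD⟩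
  have hfin : ∀ D : ℤ, Squarefree D → ∀ (P : AdelicPoint f m D) (ε : ℚ[X]), SquareNorm f ε →
      (ram P ε).Finite := by
    intro D hD P ε hε
    have h := hwd D hD.ne_zero
    rw [ram_toVal hm P (h.1 P.re).1 (fun p => (h.2 p (P.pa p)).1)]
    exact Pool.Agent.Q51.EB.fin_ramA f hf hev (by omega) D hD _ ε hε
  have hels : ∀ D : ℤ, Pool.Agent.Q51.EB.ELSM f m D ↔ Nonempty (AdelicPoint f m D) := by
    intro D
    constructor
    · rintro ⟨⟨x, w, y, h1, h2⟩, hp⟩
      choose x' w' y' h3 h4 using fun p : Nat.Primes => hp (p : ℕ)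
      exact ⟨⟨⟨x, w, y, h1, h2⟩, fun p => ⟨x' p, w' p, y' p, h3 p, h4 p⟩⟩⟩
    · rintro ⟨P⟩
      refine ⟨⟨P.re.x, P.re.w, P.re.y, P.re.ne, P.re.eq⟩, fun p hp => ?_⟩
      exact ⟨(P.pa ⟨p, hp.out⟩).x, (P.pa ⟨p, hp.out⟩).w, (P.pa ⟨p, hp.out⟩).y,
        (P.pa ⟨p, hp.out⟩).ne, (P.pa ⟨p, hp.out⟩).eq⟩
  have hcount : ∀ (P : ℤ → Prop) (X : ℝ),
      {D : ℤ | (D.natAbs : ℝ) ≤ X ∧ Squarefree D ∧ P D}.ncard = count P X := by
    intro P X
    unfold count
    congr 1
    ext D
    simp only [Set.mem_ofPred_eq, Nat.cast_natAbs, Int.cast_abs]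
    tauto
  have hcE : ∀ X : ℝ, count (fun D => Nonempty (AdelicPoint f m D)) X =
      {D : ℤ | (D.natAbs : ℝ) ≤ X ∧ Squarefree D ∧ Pool.Agent.Q51.EB.ELSM f m D}.ncard := by
    intro X
    rw [hcount]
    congr 1
    ext D
    rw [hels]
  have hlow : (∃ D : ℤ, Squarefree D ∧ Nonempty (AdelicPoint f m D)) →
      ∃ c X₀ : ℝ, 0 < c ∧ ∀ X : ℝ, X₀ ≤ X →
      c * X / Real.log X * Real.exp (Pool.Agent.Q51.EL.Gf f X) ≤
        (count (fun D => Nonempty (AdelicPoint f m D)) X : ℝ) := by
    rintro ⟨D0, hD0, hP⟩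
    obtain ⟨c, X0, hc, h4⟩ := Pool.Agent.Q51.EB.t_lowm f hf m (by omega) D0 hD0 ((hels D0).mpr hP)
    refine ⟨c, X0, hc, fun X hX => ?_⟩
    rw [hcE]
    exact h4 X hX
  have hup : ∀ X : ℝ, count (fun D => ∃ P : AdelicPoint f m D, Orthogonal P) X ≤
      {D : ℤ | (D.natAbs : ℝ) ≤ X ∧ Squarefree D ∧
        ∃ P : Pool.Agent.Q51.EB.AVal f D, Pool.Agent.Q51.EB.Orth P}.ncard := by
    intro X
    rw [← hcount]
    apply Set.ncard_le_ncard _ (Pool.Agent.Q51.EL.fin_sq X _)
    rintro D ⟨h1, h2, P, hP⟩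
    have h := hwd D h2.ne_zero
    refine ⟨h1, h2, toVal hm P (h.1 P.re).1 (fun p => (h.2 p (P.pa p)).1), fun ε hε => ?_⟩
    rw [← ram_toVal]
    exact ⟨hfin D h2 P ε hε, hP ε hε⟩
  have hle : ∀ X : ℝ, count (fun D => ∃ P : AdelicPoint f m D, Orthogonal P) X ≤
      count (fun D => Nonempty (AdelicPoint f m D)) X := by
    intro X
    rw [← hcount, ← hcount]
    apply Set.ncard_le_ncard _ (Pool.Agent.Q51.EL.fin_sq X _)
    rintro D ⟨h1, h2, P, -⟩
    exact ⟨h1, h2, ⟨P⟩⟩
  refine ⟨hwd, hfin, ?_, ?_, ?_⟩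
  · intro D hD Q ε hε
    have h := hwd D hD
    set a : ℚ[X] := C Q.x - C Q.w * X with ha
    have hirr : ∀ (F : Type) [Field F] [CharZero F],
        IsValue (Q.base F) (a.map (Rat.castHom F)) := by
      intro F _ _
      have hf0 : f ≠ 0 := by
        rintro rfl
        simp at hn
      have ha0 : a ≠ 0 := by
        intro h
        have h3 := congrArg (fun q : ℚ[X] => q.coeff 0) h
        have h4 := congrArg (fun q : ℚ[X] => q.coeff 1) h
        simp only [ha, coeff_sub, coeff_C_zero, coeff_C_mul, coeff_X_zero, mul_zero, sub_zero,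
          coeff_zero] at h3
        simp only [ha, coeff_sub, coeff_C_succ, coeff_C_mul, coeff_X_one, mul_one, zero_sub,
          coeff_zero, neg_eq_zero] at h4
        rcases Q.ne with h5 | h5
        · exact h5 h3
        · exact h5 h4
      have hcop : IsCoprime (polOver f ℚ) a := by
        rw [hf.coprime_iff_not_dvd]
        intro hd
        have h3 := natDegree_le_of_dvd hd ha0
        have h4 : a.natDegree ≤ 1 := by
          rw [ha]
          refine (natDegree_sub_le _ _).trans (max_le ?_ ?_)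
          · rw [natDegree_C]
            exact Nat.zero_le _
          · exact (natDegree_C_mul_le Q.w X).trans natDegree_X_le
        have h5 : (polOver f ℚ).natDegree = f.natDegree := Pool.Agent.Q58.EB.up_deg f
        rw [h5] at h3
        omega
      have e1 : a.map (Rat.castHom F) = C (Q.x : F) - C (Q.w : F) * X := by
        rw [ha]
        simp
      have hb := Pool.Agent.Q247.EB.bc f hf F a
      refine ⟨hb.2.2.1 hcop, ?_, ?_⟩
      · change polOver f F ∣ (C (Q.x : F) - C (Q.w : F) * X) * (a.map (Rat.castHom F) -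
          (C (Q.x : F) - C (Q.w : F) * X))
        rw [e1, sub_self, mul_zero]
        exact dvd_zero _
      · have hb1 : Algebra.norm F (AdjoinRoot.mk (polOver f F) (a.map (Rat.castHom F))) =
            ((Algebra.norm ℚ (AdjoinRoot.mk (polOver f ℚ) a) : ℚ) : F) := hb.1
        rw [hb1]
        refine ⟨((D * Q.y ^ (m / 2) : ℚ) : F), ?_⟩
        have h4 := Pool.Agent.Q58.EB.norm_lin (F := ℚ) hf0 Q.x Q.w
        have hQ : (D : ℚ) * (Q.y ^ (m / 2)) ^ 2 = Pool.Agent.Q51.EL.hom f Q.x Q.w := image hm Q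
        have h5 : ((D * f.leadingCoeff : ℤ) : ℚ) *
            Algebra.norm ℚ (AdjoinRoot.mk (polOver f ℚ) a) =
              (D * Q.y ^ (m / 2)) * (D * Q.y ^ (m / 2)) := by
          push_cast
          rw [mul_assoc, ha]
          have h4' : (f.leadingCoeff : ℚ) * Algebra.norm ℚ (AdjoinRoot.mk (polOver f ℚ)
            (C Q.x - C Q.w * X)) = Pool.Agent.Q51.EL.hom f Q.x Q.w := h4
          rw [h4', ← hQ]
          ring
        have h6 := congrArg (fun q : ℚ => (q : F)) h5
        push_cast at h6 ⊢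
        exact h6
    have hcopQ : IsCoprime (polOver f ℚ) a := by
      have h1 := (hirr ℚ).1
      have h2 : a.map (Rat.castHom ℚ) = a := by
        have : Rat.castHom ℚ = RingHom.id ℚ := RingHom.ext (fun q => by simp)
        rw [this, Polynomial.map_id]
      rwa [h2] at h1
    have hram : ram Q.adelic ε = Pool.Agent.Q51.EB.ramG f a ε := by
      ext v
      match v with
      | none =>
        change inv (Q.base ℝ) (ε.map (Rat.castHom ℝ)) = -1 ↔
          corestriction (polOver f ℝ) (a.map (Rat.castHom ℝ)) (ε.map (Rat.castHom ℝ)) = -1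
        rw [(h.1 (Q.base ℝ)).2 _ (hirr ℝ) ε hε]
      | some p =>
        change inv (Q.base ℚ_[(p : ℕ)]) (ε.map (Rat.castHom ℚ_[(p : ℕ)])) = -1 ↔
          corestriction (polOver f ℚ_[(p : ℕ)]) (a.map (Rat.castHom ℚ_[(p : ℕ)]))
            (ε.map (Rat.castHom ℚ_[(p : ℕ)])) = -1
        rw [(h.2 p (Q.base ℚ_[(p : ℕ)])).2 _ (hirr ℚ_[(p : ℕ)]) ε hε]
    rw [hram]
    exact (Pool.Agent.Q51.EB.t_pfc f hf a ε hcopQ hε.1).2
  · by_cases hex : ∃ D : ℤ, Squarefree D ∧ Nonempty (AdelicPoint f m D)
    · obtain ⟨c4, X0, hc4, hl⟩ := hlow hex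
      obtain ⟨K, C2, C3, c, hK, hC2, hc, hS⟩ := Pool.Agent.Q51.EB.t_up f hf hev hn
      obtain ⟨δ, C, hδ, -, hr⟩ := Pool.Agent.Q51.EL.ratio
        (fun X => (count (fun D => ∃ P : AdelicPoint f m D, Orthogonal P) X : ℝ))
        (fun X => (count (fun D => Nonempty (AdelicPoint f m D)) X : ℝ))
        (Pool.Agent.Q51.EL.Gf f) f.natDegree (by omega) K C2 C3 c c4 X0 hK hC2 hc hc4
        (fun X => by positivity) (fun X => by exact_mod_cast hle X)
        (fun Y Z h => Pool.Agent.Q51.EL.Gf_mono f h)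
        (fun X hX => le_trans (by exact_mod_cast hup X) (hS X hX)) hl
      exact ⟨δ, C, hδ, hr⟩
    · refine ⟨1, 0, one_pos, fun X _ => ?_⟩
      have h0 : count (fun D => ∃ P : AdelicPoint f m D, Orthogonal P) X = 0 := by
        unfold count
        have : {D : ℤ | Squarefree D ∧ |(D : ℝ)| ≤ X ∧
            ∃ P : AdelicPoint f m D, Orthogonal P} = ∅ := by
          ext D
          simp only [Set.mem_ofPred_eq, Set.mem_empty_iff_false, iff_false]
          rintro ⟨h1, -, P, -⟩
          exact hex ⟨D, h1, ⟨P⟩⟩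
        rw [this, Set.ncard_empty]
      rw [h0]
      simp
  · intro hex
    obtain ⟨c, X0, hc, h4⟩ := hlow hex
    refine ⟨c, X0, hc, fun X hX => ?_⟩
    have h5 := h4 X hX
    rw [Pool.Agent.Q91.EL.Gf_eq] at h5
    have h6 : (∑' q : rootPrimes f X, (1 : ℝ) / (q : ℕ)) =
        ∑ q ∈ (Pool.Agent.Q51.EL.pr X).filter (fun q : ℕ => ∃ r : ℤ, (q : ℤ) ∣ f.eval r),
          (1 : ℝ) / q := by
      have hs : rootPrimes f X = ((Pool.Agent.Q51.EL.pr X).filter
          (fun q : ℕ => ∃ r : ℤ, (q : ℤ) ∣ f.eval r) : Finset ℕ) := by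
        ext q
        simp only [rootPrimes, Set.mem_ofPred_eq, Finset.coe_filter, Pool.Agent.Q51.EL.pr,
          Finset.mem_filter, Finset.mem_Icc]
        constructor
        · rintro ⟨ha, hb, hc⟩
          exact ⟨⟨⟨ha.one_le, Nat.le_floor hb⟩, ha⟩, hc⟩
        · rintro ⟨⟨⟨ha, hb⟩, hc⟩, hd⟩
          exact ⟨hc, (Nat.le_floor_iff' hc.ne_zero).1 hb, hd⟩
      rw [hs]
      exact Finset.tsum_subtype _ (fun q : ℕ => (1 : ℝ) / q)
    rw [h6]
    exact h5

end Pool.Agent.Results.MP_ab3ecb_nt.EmptyForSuperellipticTwists
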