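import Pool.Agent.Q51.ZC.KZer5

/-!
# Stoll's conjecture for 100 percent of the everywhere locally soluble twists of Fermat curves, over all number
# fields of degree prime to `q`

Let `n` be odd, `1 < m`, `m ∣ n`, let `a, b` be integers such that `a X ^ n + b` is irreducible over `ℚ`, and let
`C_D : D y ^ m = a x ^ n + b w ^ n`, a smooth curve in the weighted projective plane of weights `(1, 1, n/m)` (for
`m = n` the twists of a Fermat curve).

**Theorem.** For 100 percent of the everywhere locally soluble curves `C_D` with squarefree `D` (all but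
`C (log X)^(-δ) E(X)`, if `E(X)` is the number of them with `|D| ≤ X`) the following holds for ALL number fields `K`
such that some prime factor `q` of `m` does not divide `[K : ℚ]`: `C_D(K)` is empty, and the Brauer-Manin set of
`(C_D)_K` is empty: no adelic point of `(C_D)_K` is orthogonal to the restrictions of the classes `A_χ ∈ Br(C_D)`
to `(C_D)_K`.  So the assertion of the problem holds for the curves `(C_D)_K`, for all these `K` at the same time,
although `C_D` has points over all completions of `ℚ`; and the same classes, defined over `ℚ`, give the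
obstruction over all `K`.

`A_χ = Cor_{L/ℚ} (χ, x ^ (n/q) - θ w ^ (n/q))`, `L = ℚ[X]/(a X ^ q + b) = ℚ(θ)`, `χ` a character of order `q` of the
idele class group of `L` which is trivial on the ideles of `ℚ`.  The completions of `K` at the places above `p` are
the residue fields `K_v` of `ℚ_p ⊗ K`; the local invariant at a point over `K_v` of the restriction of `A_χ` is
`χ_p` of the norm of `x ^ (n/q) - θ w ^ (n/q)` from `K_v ⊗ L` to `ℚ_p ⊗ L`.  Since `q` is odd the invariants at the
infinite places are zero.

The definitions are in `Pool/Agent/Q51/ZC/Zer.lean`, `Pool/Agent/Q51/ZC/KZer.lean`, `Pool/Agent/Q51/ZC/KZer4.lean`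
(`HasPoint`, `HasOrthogonalPoint`, `numPoints`) and `Pool/Agent/Q51/ZC/KZer5.lean` (`CPoint.adelic`).

(helper51, with lemmas of helper38, helper86, helper92, helper150, helper190, helper195, helper210, helper241,
helper257, helper299, and for the projects SE, EL and EB of helper26, helper38, helper52, helper58, helper65,
helper68, helper91, helper154, helper187, helper198, helper210, helper239, helper241, helper247, helper251,
helper277.)
-/

set_option autoImplicit false

namespace Pool.Agent.Results.MP_ab3ecb_nt.FermatTwistsOverAllFields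

open Polynomial Pool.Agent.Q51.ZC
open Pool.Agent.Q51.SE (ClassCharacter)

theorem result (a b : ℤ) (n m : ℕ) (hn : Odd n) (hm : 1 < m) (hmn : m ∣ n)
    (hirr : Irreducible (C (a : ℚ) * X ^ n + C (b : ℚ))) :
    (∃ δ C : ℝ, 0 < δ ∧ ∀ X : ℝ, 3 ≤ X →
      numPoints a b n m X ≤ C * Real.log X ^ (-δ) * numLocSoluble a b n m X) ∧
    ((∃ D : ℤ, Squarefree D ∧ Soluble a b n m D) → ∃ c X₀ : ℝ, 0 < c ∧ ∀ X : ℝ, X₀ ≤ X →
      c * X / Real.log X * Real.exp (sumRoots a b n X) ≤ numLocSoluble a b n m X) ∧
    ∀ D : ℤ, D ≠ 0 → ∀ q : ℕ, q.Prime → q ∣ m →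
      (∀ p : Nat.Primes, ClosedInvariantsWellDefined a b n m D q p) ∧
      ∀ (K : Type) [Field K] [NumberField K],
        (∀ (P : AdelicPointOver a b n m D K) (χ : ClassCharacter (fq a b q) q),
          {p : Nat.Primes | ∃ v, (rationalPoint (P p v)).inv χ ≠ 0}.Finite) ∧
        ∀ P : CPoint a b n m D K, P.adelic.Orthogonal q := by
  obtain ⟨h1, -, h3⟩ := main hn hm hmn hirr
  have hirr' := hirr
  rw [← fq_map] at hirr'
  have hn0 := hn.pos
  obtain ⟨ha, hb⟩ := fq_ne (by
    have := Nat.le_of_dvd hn0 hmn
    omega) hirr'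
  refine ⟨main_points hn hm hmn hirr, h3, fun D hD q hq hqm =>
    ⟨(h1 D hD q hq hqm).1, fun K _ _ => ⟨fun P χ => ?_, fun P =>
      adelic_orthogonal ha hq hn0 (hqm.trans hmn) hqm
        (fq_irr hn0 (hqm.trans hmn) hirr') hD K P⟩⟩⟩
  have h := fin_supp_over ha hq hn0 (hqm.trans hmn) hqm
    (fq_irr hn0 (hqm.trans hmn) hirr') hD K (fun p v => [(1, rationalPoint (P p v))]) χ
  refine h.subset ?_
  rintro p ⟨v, hv⟩
  refine ⟨v, ?_⟩
  unfold ZeroCycleOver.inv
  simpa using hv

end Pool.Agent.Results.MP_ab3ecb_nt.FermatTwistsOverAllFields
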