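import Mathlib
import Pool.Agent.Q161.OS.Fnl
import Pool.Agent.Q161.OD.Sqf
import Pool.Agent.Q135.OS.RED

/-!
# The adelic points which survive 2-descent, for 100% of all quadratic twists

Let `f ∈ ℤ[x]` be irreducible over `ℚ`, of odd degree `n ≥ 5`, with leading coefficient `a`, let `F(x, w)`
be its homogenisation, and for squarefree integers `D` let `C_D` be the curve `D y² = w F(x, w)` in the
weighted plane, the quadratic twist of the hyperelliptic curve `y² = f(x)` of genus `(n - 1)/2 ≥ 2`.  It
has the rational point `∞ = (1 : 0)`.  The 2-coverings of `C_D` are the curves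
`x - θ w = δ η²`, `w = a D N(δ) v²`, with `δ, η ∈ ℚ[X]/(f)`, `θ` the class of `X`, `v` a number; the
covering depends only on the class of `δ` modulo `ℚ^*` and squares, and the one of `δ = 1` has a
rational point above `∞`.

**Theorem.**  There is a number `z` such that for 100% of all squarefree integers `D` (natural density):
* The 2-Selmer set of `C_D` has exactly one element: if the 2-covering given by `δ` has points over all
  completions of `ℚ`, then `δ` is a rational number times a square.
* Every adelic point `(P_v)` of `C_D` which survives 2-descent, that is, which lifts to an adelic point of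
  a 2-covering, has at all places the type of `∞`: all `P_v` lift to the 2-covering of `δ = 1`.
  Moreover `P_p` reduces to `∞` modulo all primes `p > z` dividing `D`.
* Every rational point of `C_D` is the image of a rational point of the 2-covering of `δ = 1`.

By a theorem of Stoll the adelic points in the Brauer-Manin set survive all abelian descents; so for
these `D` the Brauer-Manin set of `C_D` is contained in the image of the adelic points of one
2-covering, the one of the known rational point `∞`, and all its points are close to `∞` at the primes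
dividing `D`.

The covering `Y_D` of `δ = 1` is a double covering of the curve
`V = {[η] ∈ P(ℚ[X]/(f)) : η² ∈ ⟨1, θ⟩}` of genus `1 + (n - 4) 2^(n-3) ≥ 5`, which does not depend on `D`.
(So with Faltings' theorem for `V`, which is not used here, `C_D(ℚ) = {∞}` for 100% of all squarefree
`D`.)  Without Faltings' theorem, the last part of the theorem shows, for instance, that for 100% of all
squarefree `D` the equation `D y² = f(x)` has no solution with `x ∈ ℤ[1/M]`, `y ∈ ℚ`, for a fixed `M`.

Proof.  Let `L = ℚ(θ)`.  If `δ` belongs to an everywhere locally soluble covering then for every prime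
`l ∣ D` outside a finite set, either the points over `ℚ_l` reduce to `∞`, and then `δ` is a rational number
times a square locally at `l`, or they reduce to a zero of `f` which gives a prime `v0(l)` of `L` of
degree one.  Let `m` be the product of the `l` of the first kind.  The product of the `v0(l)` for the other
`l` and a small ideal has a generator `α ∈ 𝓞 L` in the class of `δ`, with conjugates `≤ C (|D|/m)^(1/n)`.
The pairs `(α, m)` of one type satisfy: `α` is a unit at `l` or contained in exactly one prime `v0` above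
`l`, and then `m m' α α'` is a square modulo all other primes above `l` for any two such pairs; and if
`l ∣ m` then `α α'` is a rational number times a square modulo `l`.  The large sieve in dimension `n + 1` for
dyadic boxes, Chebotarev's and Mertens' theorems show that the number of the pairs with `α` and `m`
large is `o(X)`; for bounded `m` one uses the large sieve in dimension `n` (project EL of helper51); and
for bounded `α`, not a rational number times a square, `m` has no prime factor in a set of primes of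
positive density.

(helper161, with lemmas of helper166, helper237, helper151, helper96, helper135, helper211, helper277,
helper26, helper225, helper239, helper91, helper247, helper154.)
-/

set_option autoImplicit false

open Polynomial Filter

namespace Pool.Agent.Results.MP_ab3ecb_nt.TypeOfInfinity

/-- The homogenisation `F(x, w) = ∑ i, a i * x ^ i * w ^ (n - i)` of `f = ∑ i, a i * x ^ i`, where
`n = deg f`. -/
noncomputable def hom (f : ℤ[X]) {R : Type*} [CommRing R] (x w : R) : R :=
  ∑ i ∈ Finset.range (f.natDegree + 1), (f.coeff i : R) * x ^ i * w ^ (f.natDegree - i)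

/-- A point over `F` of the curve `C_D : D y² = w F(x, w)`; the point `∞` is `x = 1`, `w = y = 0`. -/
structure Point (f : ℤ[X]) (D : ℤ) (F : Type) [Field F] where
  /-- the first coordinate -/
  x : F
  /-- the second coordinate -/
  w : F
  /-- the third coordinate -/
  y : F
  ne : x ≠ 0 ∨ w ≠ 0
  eq : (D : F) * y ^ 2 = w * hom f x w

/-- An adelic point of the curve `C_D`. -/
structure AdelicPoint (f : ℤ[X]) (D : ℤ) where
  /-- the real component -/
  re : Point f D ℝ
  /-- the `p`-adic components -/
  pa : ∀ (p : ℕ) [Fact p.Prime], Point f D ℚ_[p]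

section coverings

variable {f : ℤ[X]} {D : ℤ} {F : Type} [Field F] [CharZero F]

variable (f D) in
/-- The factor `a * D * N(d(θ))` in the equation of the 2-covering given by `δ = d(θ)`; `a` is the
leading coefficient of `f`, and `N` is the norm of `ℚ[X]/(f)` over `ℚ`. -/
noncomputable def factor (d : ℚ[X]) : ℚ :=
  ((f.leadingCoeff * D : ℤ) : ℚ) * Algebra.norm ℚ (AdjoinRoot.mk (f.map (Int.castRingHom ℚ)) d)

/-- The point `P` of `C_D` over `F` lifts to a point over `F` of the 2-covering
`x - θ w = d(θ) η²`, `w = a D N(d(θ)) v²`.  Here `θ` is the class of `X` in `F[X]/(f)`, `η = g(θ)` is an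
element of this algebra, and `(c x, c w)` are coordinates of `P`, too. -/
def Point.LiftsTo (P : Point f D F) (d : ℚ[X]) : Prop :=
  ∃ (c v : F) (g : F[X]), c ≠ 0 ∧
    f.map (Int.castRingHom F) ∣
      C (c * P.x) - C (c * P.w) * X - d.map (Rat.castHom F) * g ^ 2 ∧
    c * P.w = (factor f D d : F) * v ^ 2

variable (f D F) in
/-- The 2-covering of `C_D` given by `δ = d(θ)` has a point over `F`. -/
def CoveringPoint (d : ℚ[X]) : Prop :=
  ∃ (x w v : F) (g : F[X]), (x ≠ 0 ∨ w ≠ 0) ∧
    f.map (Int.castRingHom F) ∣ C x - C w * X - d.map (Rat.castHom F) * g ^ 2 ∧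
    w = (factor f D d : F) * v ^ 2

end coverings

/-- The 2-Selmer set of `C_D` has only one element: if the 2-covering given by an invertible element
`δ = d(θ)` of `ℚ[X]/(f)` has points over `ℝ` and over `ℚ_p` for all primes `p`, then `δ` is a rational
number times a square. -/
def OneSelmerElement (f : ℤ[X]) (D : ℤ) : Prop :=
  ∀ d : ℚ[X], IsCoprime (f.map (Int.castRingHom ℚ)) d → CoveringPoint f D ℝ d →
    (∀ (p : ℕ) [Fact p.Prime], CoveringPoint f D ℚ_[p] d) →
      ∃ (c : ℚ) (η : ℚ[X]), f.map (Int.castRingHom ℚ) ∣ d - C c * η ^ 2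

/-- The adelic point survives 2-descent: it lifts to an adelic point of a 2-covering, given by an
invertible element `δ = d(θ)` of `ℚ[X]/(f)`. -/
def AdelicPoint.Survives {f : ℤ[X]} {D : ℤ} (P : AdelicPoint f D) : Prop :=
  ∃ d : ℚ[X], IsCoprime (f.map (Int.castRingHom ℚ)) d ∧ P.re.LiftsTo d ∧
    ∀ (p : ℕ) [Fact p.Prime], (P.pa p).LiftsTo d

/-- The adelic point has at all places the type of `∞`, that is, it lifts to an adelic point of the
2-covering of `δ = 1`; and it reduces to `∞` modulo all primes `p > z` dividing `D`. -/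
def AdelicPoint.NearInfinity {f : ℤ[X]} {D : ℤ} (z : ℕ) (P : AdelicPoint f D) : Prop :=
  P.re.LiftsTo 1 ∧ (∀ (p : ℕ) [Fact p.Prime], (P.pa p).LiftsTo 1) ∧
    ∀ (p : ℕ) [Fact p.Prime], z < p → (p : ℤ) ∣ D → ‖(P.pa p).w‖ < ‖(P.pa p).x‖

/-- The number of the squarefree integers `D` with `|D| ≤ X` and the property `P`. -/
noncomputable def count (P : ℤ → Prop) (X : ℝ) : ℕ :=
  {D : ℤ | Squarefree D ∧ |(D : ℝ)| ≤ X ∧ P D}.ncard

/-- The property `P` holds for 100% of all squarefree integers `D`, in the sense of natural density. -/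
def HoldsForAlmostAll (P : ℤ → Prop) : Prop :=
  Tendsto (fun X : ℝ => (count P X : ℝ) / (count (fun _ => True) X : ℝ)) atTop (nhds 1)

lemma almostAll_of (P Q : ℤ → Prop) (hPQ : ∀ D : ℤ, Squarefree D → ¬ P D → Q D)
    (h : ∀ ε : ℝ, 0 < ε → ∃ X0 : ℝ, ∀ X : ℝ, X0 ≤ X →
      (({D : ℤ | (D.natAbs : ℝ) ≤ X ∧ Squarefree D ∧ Q D}.ncard : ℕ) : ℝ) ≤ ε * X) :
    HoldsForAlmostAll P := by
  classical
  have h0 := Pool.Agent.Q161.OD.tendsto_of_le _ h
  obtain ⟨X1, hX1⟩ := Pool.Agent.Q161.OD.sqf_lower
  have hset : ∀ X : ℝ, {D : ℤ | (D.natAbs : ℝ) ≤ X ∧ Squarefree D}.ncard =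
      count (fun _ => True) X := by
    intro X
    unfold count
    congr 1
    ext D
    simp only [Set.mem_ofPred_eq, Nat.cast_natAbs, Int.cast_abs]
    tauto
  have hfin : ∀ (P : ℤ → Prop) (X : ℝ), {D : ℤ | (D.natAbs : ℝ) ≤ X ∧ P D}.Finite :=
    fun P X => Pool.Agent.Q161.SX.natAbs_finite X P
  unfold HoldsForAlmostAll
  rw [Metric.tendsto_atTop] at h0 ⊢
  intro ε hε
  obtain ⟨X0, hX0⟩ := h0 ε hε
  refine ⟨max (max X0 X1) 1, fun X hX => ?_⟩
  have h1 := hX0 X (((le_max_left _ _).trans (le_max_left _ _)).trans hX)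
  have h2 := hX1 X (((le_max_right _ _).trans (le_max_left _ _)).trans hX)
  have hX1' : 1 ≤ X := (le_max_right _ _).trans hX
  rw [hset] at h1 h2
  have hpos : (0 : ℝ) < (count (fun _ => True) X : ℝ) := by
    refine lt_of_lt_of_le ?_ h2
    positivity
  have h3 : count P X ≤ count (fun _ => True) X := by
    refine Set.ncard_le_ncard (fun D hD => ⟨hD.1, hD.2.1, trivial⟩) ?_
    refine (hfin (fun _ => True) X).subset ?_
    rintro D ⟨-, hD, -⟩
    refine ⟨?_, trivial⟩
    rw [Nat.cast_natAbs, Int.cast_abs]
    exact hD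
  have h4 : count (fun _ => True) X ≤ count P X +
      {D : ℤ | (D.natAbs : ℝ) ≤ X ∧ Squarefree D ∧ Q D}.ncard := by
    refine le_trans ?_ (Set.ncard_union_le _ _)
    have hfinU : ({D : ℤ | Squarefree D ∧ |(D : ℝ)| ≤ X ∧ P D} ∪
        {D : ℤ | (D.natAbs : ℝ) ≤ X ∧ Squarefree D ∧ Q D}).Finite := by
      refine Set.Finite.union ?_ (hfin _ X)
      refine (hfin (fun _ => True) X).subset ?_
      rintro D ⟨-, hD, -⟩
      refine ⟨?_, trivial⟩
      rw [Nat.cast_natAbs, Int.cast_abs]
      exact hD
    refine Set.ncard_le_ncard ?_ hfinU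
    rintro D ⟨h5, h6, -⟩
    by_cases h7 : P D
    · exact Or.inl ⟨h5, h6, h7⟩
    · exact Or.inr ⟨by rw [Nat.cast_natAbs, Int.cast_abs]; exact h6, h5, hPQ D h5 h7⟩
  have h5 : (count (fun _ => True) X : ℝ) ≤ (count P X : ℝ) +
      (({D : ℤ | (D.natAbs : ℝ) ≤ X ∧ Squarefree D ∧ Q D}.ncard : ℕ) : ℝ) := by exact_mod_cast h4
  have h3' : (count P X : ℝ) ≤ (count (fun _ => True) X : ℝ) := by
    exact_mod_cast h3
  rw [Real.dist_eq, sub_zero, abs_of_nonneg (by positivity)] at h1
  rw [Real.dist_eq, abs_lt]
  rw [div_lt_iff₀ hpos] at h1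
  constructor
  · rw [lt_sub_iff_add_lt, lt_div_iff₀ hpos]
    nlinarith
  · have h6 : (count P X : ℝ) / (count (fun _ => True) X : ℝ) ≤ 1 := (div_le_one hpos).2 h3'
    linarith

theorem result (f : ℤ[X]) (hf : Irreducible (f.map (Int.castRingHom ℚ))) (hodd : Odd f.natDegree)
    (hn : 5 ≤ f.natDegree) :
    ∃ z : ℕ, HoldsForAlmostAll fun D =>
      OneSelmerElement f D ∧
      (∀ P : AdelicPoint f D, P.Survives → P.NearInfinity z) ∧
      ∀ P : Point f D ℚ, P.LiftsTo 1 := by
  obtain ⟨z, hz⟩ := Pool.Agent.Q135.OS.red f hf (by omega)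
  refine ⟨z, almostAll_of _ (Pool.Agent.Q161.OS.BdP f) ?_
    (Pool.Agent.Q161.OS.pts_density f hf hodd hn)⟩
  intro D hD hcon
  by_contra hB
  apply hcon
  have htr : ∀ d : ℚ[X], IsCoprime (f.map (Int.castRingHom ℚ)) d →
      (∀ (p : ℕ) [Fact p.Prime], CoveringPoint f D ℚ_[p] d) → Pool.Agent.Q161.OS.TrP f d := by
    intro d hd hp
    by_contra hT
    exact hB ⟨d, hd, hT, fun p _ => hp p⟩
  have hfac : (factor f D 1 : ℚ) = ((f.leadingCoeff * D : ℤ) : ℚ) :=
    Pool.Agent.Q161.OS.kap_one hf D
  refine ⟨?_, ?_, ?_⟩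
  · intro d hd _ hp
    exact htr d hd hp
  · rintro P ⟨d, hd, hre, hpa⟩
    have hT : Pool.Agent.Q161.OS.TrP f d := htr d hd fun p _ =>
      Pool.Agent.Q161.OS.lift_cov (P.pa p).ne (hpa p)
    have h1 : ∀ (p : ℕ) [Fact p.Prime], (P.pa p).LiftsTo 1 := fun p _ =>
      Pool.Agent.Q161.OS.lift_one hf hodd hd hT (hpa p)
    refine ⟨Pool.Agent.Q161.OS.lift_one hf hodd hd hT hre, h1, ?_⟩
    intro p _ hp hpD
    obtain ⟨c, v, g, hc, h2, h3⟩ := h1 p
    refine hz p hp D hD hpD (P.pa p).x (P.pa p).w v c g hc (P.pa p).ne ?_ ?_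
    · rw [Polynomial.map_one, one_mul] at h2
      exact h2
    · rw [h3, hfac]
      push_cast
      ring
  · intro P
    exact Pool.Agent.Q161.OS.rat_lift hf hodd (by omega) hD.ne_zero hB P.x P.w P.y P.ne P.eq

end Pool.Agent.Results.MP_ab3ecb_nt.TypeOfInfinity
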